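import Pool.Agent.H29.HMF.Stmts

set_option autoImplicit false

open Matrix MeasureTheory

namespace Pool.HMF

private theorem bas_sq (i : Fin 2) :
    (![√2, -√2] : Fin 2 → ℝ) i * (![√2, -√2] : Fin 2 → ℝ) i = 2 := by
  fin_cases i
  · simp
  · simp

private theorem bas_mul (i : Fin 2) (x y : ℤ√2) : em i (x * y) = em i x * em i y := by
  have h := bas_sq i
  unfold em
  simp only [Zsqrtd.re_mul, Zsqrtd.im_mul]
  push_cast
  linear_combination (-((x.im : ℝ) * (y.im : ℝ))) * h

private theorem bas_add (i : Fin 2) (x y : ℤ√2) : em i (x + y) = em i x + em i y := by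
  unfold em
  simp only [Zsqrtd.re_add, Zsqrtd.im_add]
  push_cast
  ring

private theorem bas_neg (i : Fin 2) (x : ℤ√2) : em i (-x) = - em i x := by
  unfold em
  simp only [Zsqrtd.re_neg, Zsqrtd.im_neg]
  push_cast
  ring

private theorem bas_one (i : Fin 2) : em i 1 = 1 := by
  simp [em]

private theorem bas_zero (i : Fin 2) : em i 0 = 0 := by
  simp [em]

private noncomputable def bas_hom (i : Fin 2) : ℤ√2 →+* ℝ where
  toFun := em i
  map_one' := bas_one i
  map_mul' := bas_mul i
  map_zero' := bas_zero i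
  map_add' := bas_add i

private theorem bas_lin (a b : ℤ) (h : (a : ℝ) + √2 * (b : ℝ) = 0) : a = 0 ∧ b = 0 := by
  have hb : b = 0 := by
    by_contra hb
    have hb' : (b : ℝ) ≠ 0 := by exact_mod_cast hb
    have hirr : Irrational (√2) := irrational_sqrt_two
    apply hirr
    refine ⟨-(a : ℚ) / (b : ℚ), ?_⟩
    push_cast
    field_simp
    linarith
  subst hb
  refine ⟨?_, rfl⟩
  have h2 : (a : ℝ) = 0 := by simpa using h
  exact_mod_cast h2

private theorem bas_inj0 (i : Fin 2) (x : ℤ√2) (h : em i x = 0) : x = 0 := by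
  have key : x.re = 0 ∧ x.im = 0 := by
    fin_cases i
    · apply bas_lin
      simpa [em] using h
    · have h1 : ((x.re : ℤ) : ℝ) + √2 * ((-x.im : ℤ) : ℝ) = 0 := by
        have : ((x.re : ℝ)) + (-√2) * (x.im : ℝ) = 0 := by simpa [em] using h
        push_cast
        linarith
      have h2 := bas_lin _ _ h1
      exact ⟨h2.1, by omega⟩
  exact Zsqrtd.ext key.1 key.2

private theorem bas_norm (x : ℤ√2) : em 0 x * em 1 x = ((x.re ^ 2 - 2 * x.im ^ 2 : ℤ) : ℝ) := by
  have h : √2 * √2 = (2 : ℝ) := by simp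
  have h0 : em 0 x = (x.re : ℝ) + √2 * (x.im : ℝ) := rfl
  have h1 : em 1 x = (x.re : ℝ) + (-√2) * (x.im : ℝ) := rfl
  rw [h0, h1]
  push_cast
  linear_combination (-((x.im : ℝ) * (x.im : ℝ))) * h

theorem bas_thm : BASS := by
  refine ⟨bas_mul, bas_add, bas_neg, bas_one, bas_zero, ?_, bas_norm, ?_, ?_, ?_, ?_, ?_, ?_⟩
  · intro i x y h
    have h1 : em i (x + -y) = 0 := by
      rw [bas_add, bas_neg, h]
      ring
    have h2 := bas_inj0 i _ h1
    exact add_neg_eq_zero.mp h2
  · intro x hx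
    have h0 : em 0 x ≠ 0 := fun h => hx (bas_inj0 0 x h)
    have h1 : em 1 x ≠ 0 := fun h => hx (bas_inj0 1 x h)
    have h2 : em 0 x * em 1 x ≠ 0 := mul_ne_zero h0 h1
    rw [bas_norm] at h2 ⊢
    have h3 : (x.re ^ 2 - 2 * x.im ^ 2 : ℤ) ≠ 0 := by
      intro h
      apply h2
      rw [h]
      simp
    have h4 : 1 ≤ |(x.re ^ 2 - 2 * x.im ^ 2 : ℤ)| := Int.one_le_abs h3
    exact_mod_cast h4
  · intro i A B
    exact Matrix.map_mul (L := A) (M := B) (f := bas_hom i)
  · intro i A
    have h := RingHom.map_det (bas_hom i) A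
    exact h.symm
  · intro i A
    unfold cm
    rw [Matrix.trace_fin_two, Matrix.trace_fin_two, bas_add]
    rfl
  · intro i
    exact Matrix.map_one (em i) (bas_zero i) (bas_one i)
  · intro i A v
    funext a
    exact RingHom.map_mulVec (bas_hom i) A v a

end Pool.HMF
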